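import Pool.Agent.N848.OL.Stm

/-!
# OL/VFR (helper59, for project OL of helper848): norms at nonsplit primes
-/

set_option autoImplicit false

namespace Pool.Agent.N59.OL

open NumberField IsDedekindDomain Module WithZero
open Pool.Agent.N848.LT (Ab NS S_INT S_UP)
open Pool.Agent.N848.OL (S_VFR)

theorem norm_div {F K : Type} [Field F] [NumberField F] [Field K] [NumberField K] [Algebra F K]
    (x : K) (c : F) (hc : c ≠ 0) :
    Algebra.norm F (x / algebraMap F K c) = Algebra.norm F x / c ^ finrank F K := by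
  have hc' : algebraMap F K c ≠ 0 := by
    rwa [Ne, FaithfulSMul.algebraMap_eq_zero_iff]
  rw [eq_div_iff (pow_ne_zero _ hc), ← Algebra.norm_algebraMap, ← map_mul, div_mul_cancel₀ _ hc']

theorem ex_pow {F K : Type} [Field F] [NumberField F] [Field K] [NumberField K] [Algebra F K]
    (v : HeightOneSpectrum (𝓞 K)) (x : K) (hx : v.valuation K x < 1) (π : K) (hπ : π ≠ 0) :
    ∃ m : ℕ, v.valuation K x ^ m ≤ v.valuation K π := by
  have hπ0 : v.valuation K π ≠ 0 := (Valuation.ne_zero_iff _).2 hπ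
  obtain ⟨c, hc⟩ : ∃ c : ℤ, v.valuation K π = exp c := ⟨_, (exp_log hπ0).symm⟩
  by_cases hx0 : v.valuation K x = 0
  · exact ⟨1, by rw [hx0, pow_one]; exact zero_le⟩
  · obtain ⟨a, ha⟩ : ∃ a : ℤ, v.valuation K x = exp a := ⟨_, (exp_log hx0).symm⟩
    rw [ha, ← exp_zero, exp_lt_exp] at hx
    refine ⟨c.natAbs, ?_⟩
    rw [ha, hc, ← exp_nsmul, exp_le_exp]
    have h1 : -(c.natAbs : ℤ) ≤ c := by omega
    have h2 : (c.natAbs : ℤ) * a ≤ (c.natAbs : ℤ) * (-1) :=
      mul_le_mul_of_nonneg_left (by omega) (by positivity)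
    have h3 : c.natAbs • a = (c.natAbs : ℤ) * a := by simp
    rw [h3]
    linarith

/-- an element of norm `1` has the value `1` at a nonsplit prime -/
theorem val_one_aux (hINT : S_INT) {F K : Type} [Field F] [NumberField F] [Field K]
    [NumberField K] [Algebra F K] (u : HeightOneSpectrum (𝓞 F)) (hu : NS K u)
    (v : HeightOneSpectrum (𝓞 K)) (hv : Ab v u) (x : K) (hx : Algebra.norm F x = 1) :
    ¬ v.valuation K x < 1 := by
  intro hlt
  obtain ⟨π, hπ⟩ := u.valuation_exists_uniformizer F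
  have hπ0 : π ≠ 0 := by
    rintro rfl
    rw [map_zero] at hπ
    exact exp_ne_zero hπ.symm
  have hπ0' : algebraMap F K π ≠ 0 := by
    rwa [Ne, FaithfulSMul.algebraMap_eq_zero_iff]
  obtain ⟨m, hm⟩ := ex_pow (F := F) v x hlt (algebraMap F K π) hπ0'
  have h1 := (hINT F K u (x ^ m / algebraMap F K π) (fun v' hv' => by
    rw [hu v' v hv' hv, map_div₀, map_pow]
    have h0 : 0 < v.valuation K (algebraMap F K π) :=
      zero_lt_iff.2 ((Valuation.ne_zero_iff _).2 hπ0')
    rw [div_le_one₀ h0]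
    exact hm)).1
  have hn : 0 < finrank F K := finrank_pos
  rw [norm_div _ _ hπ0, map_pow, hx, one_pow, map_div₀, map_one, map_pow, hπ,
    ← exp_nsmul, one_div, ← exp_neg, ← exp_zero, exp_le_exp] at h1
  simp only [nsmul_eq_mul, mul_neg, mul_one, neg_neg] at h1
  omega

theorem val_one (hINT : S_INT) {F K : Type} [Field F] [NumberField F] [Field K]
    [NumberField K] [Algebra F K] (u : HeightOneSpectrum (𝓞 F)) (hu : NS K u)
    (v : HeightOneSpectrum (𝓞 K)) (hv : Ab v u) (x : K) (hx : Algebra.norm F x = 1) :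
    v.valuation K x = 1 := by
  have h1 := val_one_aux hINT u hu v hv x hx
  have hx0 : x ≠ 0 := by
    rintro rfl
    rw [Algebra.norm_zero] at hx
    exact zero_ne_one hx
  have h2 := val_one_aux hINT u hu v hv x⁻¹ (by
    have h3 : Algebra.norm F (x * x⁻¹) = 1 := by rw [mul_inv_cancel₀ hx0, map_one]
    rwa [map_mul, hx, one_mul] at h3)
  refine le_antisymm (not_lt.1 fun h => h2 ?_) (not_lt.1 h1)
  rw [map_inv₀]
  exact inv_lt_one_of_one_lt₀ h

theorem t_VFR (hINT : S_INT) (_hUP : S_UP) : S_VFR := by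
  intro p hp F K _ _ _ _ _ hn u hu v hv b c hb hc
  have hp' : p.Prime := Fact.out
  have hc0 : c ≠ 0 := by
    rintro rfl
    rw [zero_pow hp'.ne_zero, Algebra.norm_eq_zero_iff] at hc
    exact hb hc
  have hcK : algebraMap F K c ≠ 0 := by
    rwa [Ne, FaithfulSMul.algebraMap_eq_zero_iff]
  have h1 := val_one hINT u hu v hv (b ^ finrank F K / algebraMap F K (Algebra.norm F b)) (by
    have h0 : Algebra.norm F b ≠ 0 := by
      rw [hc]
      exact pow_ne_zero _ hc0
    rw [norm_div _ _ h0, map_pow]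
    exact div_self (pow_ne_zero _ h0))
  have hvb : v.valuation K b ≠ 0 := (Valuation.ne_zero_iff _).2 hb
  have hvc : v.valuation K (algebraMap F K c) ≠ 0 := (Valuation.ne_zero_iff _).2 hcK
  obtain ⟨β, hβ⟩ : ∃ β : ℤ, v.valuation K b = exp β := ⟨_, (exp_log hvb).symm⟩
  obtain ⟨γ, hγ⟩ : ∃ γ : ℤ, v.valuation K (algebraMap F K c) = exp γ :=
    ⟨_, (exp_log hvc).symm⟩
  rw [hc, map_pow, map_div₀, map_pow, map_pow, hβ, hγ, ← exp_nsmul, ← exp_nsmul, ← exp_sub,
    ← exp_zero, exp_inj] at h1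
  simp only [nsmul_eq_mul] at h1
  have h2 : (p : ℤ) ∣ (finrank F K : ℤ) * β := ⟨γ, by linarith⟩
  have h3 : (p : ℤ) ∣ β := by
    rcases (Nat.prime_iff_prime_int.1 hp').dvd_or_dvd h2 with h | h
    · exact absurd (Int.natCast_dvd_natCast.1 h) hn
    · exact h
  obtain ⟨δ, hδ⟩ := h3
  obtain ⟨ϖ, hϖ⟩ := v.valuation_exists_uniformizer K
  refine ⟨ϖ ^ δ, ?_⟩
  rw [map_mul, map_pow, map_zpow₀, hβ, hϖ, ← exp_zsmul, ← exp_nsmul, ← exp_add, ← exp_zero,
    exp_inj, hδ]
  simp only [nsmul_eq_mul, smul_eq_mul]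
  ring

end Pool.Agent.N59.OL
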